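import Mathlib

/-! # Words, framed presentations, free differential calculus, triangulations

Used for the algorithmic problem of deciding whether two homeomorphic smooth closed
4-manifolds are diffeomorphic. -/

set_option autoImplicit false

namespace Run7.h334.FM

/-- A word: `(j, true)` is the generator `x_j`, `(j, false)` its inverse. -/
abbrev Word := List (ℕ × Bool)

/-- A framed presentation `(n, R)`: generators `x_0, …, x_{n-1}` and a list of relators, each
with a bit. Letters `x_j` with `j ≥ n` count as trivial. -/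
abbrev FP := ℕ × List (Word × Bool)

/-- The relations of the group: the relators, and `x_k = 1` for `k ≥ n`. -/
def relSet (P : FP) : Set (FreeGroup ℕ) :=
  {g | (∃ r ∈ P.2, g = FreeGroup.mk r.1) ∨ ∃ k, P.1 ≤ k ∧ g = FreeGroup.of k}

/-- The group presented by `P` (the bits play no role). -/
abbrev Gr (P : FP) : Type := PresentedGroup (relSet P)

/-- The generator `x_k` in the group. -/
def gen (P : FP) (k : ℕ) : Gr P := PresentedGroup.of k

/-- The value of a word in the group. -/
def ev (P : FP) (w : Word) : Gr P := PresentedGroup.mk (relSet P) (FreeGroup.mk w)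

/-- Right translation of integral functions on a group; on functions of finite support, that is
on elements of the integral group ring, it is right multiplication by `g`. -/
def rtr {G : Type} [Group G] (g : G) (a : G → ℤ) : G → ℤ := fun y => a (y * g⁻¹)

/-- `fox P k a u` is the product `a * (∂u/∂x_k)` of an element `a` of the group ring with the
Fox derivative of the word `u`. -/
def fox (P : FP) (k : ℕ) : (Gr P → ℤ) → Word → (Gr P → ℤ)
  | _, [] => 0
  | a, (j, true) :: u => (if j = k then a else 0) + fox P k (rtr (gen P j) a) u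
  | a, (j, false) :: u =>
      (if j = k then - rtr (gen P j)⁻¹ a else 0) + fox P k (rtr (gen P j)⁻¹ a) u

/-- The presentation is aspherical: the Fox Jacobian `ℤ[G]^R → ℤ[G]^n`, which is the second
boundary map of the universal cover of the presentation complex, is injective. -/
def Asph (P : FP) : Prop :=
  ∀ a : ℕ → (Gr P → ℤ), (∀ i, (Function.support (a i)).Finite) →
    (∀ k < P.1, ∑ i ∈ Finset.range P.2.length, fox P k (a i) (P.2.getD i ([], false)).1 = 0) →
    ∀ i < P.2.length, a i = 0

/-- A finite simplicial complex, given by a list of simplices, each a list of vertices. -/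
abbrev Tri := List (List ℕ)

/-- The simplices of the complex. -/
def cx (K : Tri) : Set (Finset ℕ) := {s | s.Nonempty ∧ ∃ l ∈ K, s ⊆ l.toFinset}

/-- The underlying space. -/
def real (K : Tri) : Set (ℕ → ℝ) :=
  {x | ∃ l ∈ K, (∀ i, 0 ≤ x i) ∧ (∀ i, i ∉ l → x i = 0) ∧ ∑ i ∈ l.toFinset, x i = 1}

/-- `L` is `K` with the vertices renamed. -/
def Relabel (K L : Tri) : Prop :=
  ∃ f : ℕ → ℕ, Function.Injective f ∧ cx L = (fun s : Finset ℕ => s.image f) '' cx K

/-- `L` is the stellar subdivision of `K` at a simplex `s` with a new vertex `v`. -/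
def Stellar (K L : Tri) : Prop :=
  ∃ s ∈ cx K, ∃ v : ℕ, (∀ t ∈ cx K, v ∉ t) ∧
    cx L = {t | (t ∈ cx K ∧ ¬ s ⊆ t) ∨ ∃ r : Finset ℕ, t = insert v r ∧ ¬ s ⊆ r ∧ r ∪ s ∈ cx K}

/-- Piecewise linear homeomorphism, as stellar equivalence (Alexander). -/
def PLEq (K L : Tri) : Prop := Relation.EqvGen (fun K L => Relabel K L ∨ Stellar K L) K L

/-- Homeomorphism of the underlying spaces. -/
def TopEq (K L : Tri) : Prop := Nonempty (real K ≃ₜ real L)

/-- The link of a vertex. -/
def lnk (K : Tri) (v : ℕ) : Tri :=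
  (K.filter (fun l => v ∈ l)).map (fun l => l.filter (fun i => i ≠ v))

/-- The boundary of the 4-simplex. -/
def sphere3 : Tri := [[1, 2, 3, 4], [0, 2, 3, 4], [0, 1, 3, 4], [0, 1, 2, 4], [0, 1, 2, 3]]

/-- Closed connected combinatorial 4-manifold. -/
def Mfd (K : Tri) : Prop :=
  IsConnected (real K) ∧ ∀ v, (∃ l ∈ K, v ∈ l) → PLEq (lnk K v) sphere3

/-- Orientability: signs on the 4-simplices, opposite on the two sides of a 3-simplex. -/
def Orientable (K : Tri) : Prop :=
  ∃ e : Finset ℕ → ℤ, (∀ s ∈ cx K, s.card = 5 → e s = 1 ∨ e s = -1) ∧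
    ∀ s ∈ cx K, ∀ s' ∈ cx K, s.card = 5 → s'.card = 5 → s ≠ s' →
      ∀ i ∈ s, ∀ j ∈ s', s.erase i = s'.erase j →
        (-1) ^ (s.filter (· < i)).card * e s + (-1) ^ (s'.filter (· < j)).card * e s' = 0

/-- Closed connected nonorientable combinatorial 4-manifold. -/
def Non (K : Tri) : Prop := Mfd K ∧ ¬ Orientable K

/-- Facts on connected sums. -/
structure IsSum (sum : Tri → Tri → Tri) : Prop where
  comp : Computable₂ sum
  non : ∀ A B, Mfd A → Non B → Non (sum A B)
  mfd : ∀ A B, Mfd A → Mfd B → Mfd (sum A B)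
  congr : ∀ A A' B B', Mfd A → Mfd A' → Non B → Non B' → PLEq A A' → PLEq B B' →
    PLEq (sum A B) (sum A' B')
  congr_top : ∀ A A' B B', Mfd A → Mfd A' → Non B → Non B' → TopEq A A' → TopEq B B' →
    TopEq (sum A B) (sum A' B')
  assoc : ∀ A B C, Mfd A → Mfd B → Non C → PLEq (sum (sum A B) C) (sum A (sum B C))

/-- Facts on the boundaries `N P` of the 5-dimensional thickenings of presentation complexes. -/
structure IsThick (sum : Tri → Tri → Tri) (D : Tri) (N : FP → Tri) : Prop where
  comp : Computable N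
  mfd : ∀ P, Mfd (N P)
  slide : ∀ (n : ℕ) (R : List (Word × Bool)) (u u' : Word) (b : Bool),
    (∀ r ∈ R, r.2 = false) → ev (n, R) u = ev (n, R) u' →
    PLEq (N (n, (u, b) :: R)) (N (n, (u', b) :: R))
  trivial : ∀ (n : ℕ) (R : List (Word × Bool)),
    PLEq (N (n, ([], true) :: R)) (sum (N (n, R)) D)

/-- Connected sum with `m` copies of `H`. -/
def addH (sum : Tri → Tri → Tri) (H : Tri) : ℕ → Tri → Tri
  | 0, K => K
  | m + 1, K => sum H (addH sum H m K)

/-- Stable PL homeomorphism, `H = S² × S²`. -/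
def Stab (sum : Tri → Tri → Tri) (H K L : Tri) : Prop :=
  ∃ m, PLEq (addH sum H m K) (addH sum H m L)

/-- Facts on `E₁ = V # K3`, `E₂ = V # 11(S² × S²)` and `D`, where `V` is the nonorientable
`S³`-bundle over the circle and `D` the nontrivial `S²`-bundle over `S²`. -/
structure IsPair (sum : Tri → Tri → Tri) (D E₁ E₂ : Tri) : Prop where
  mfdD : Mfd D
  non₁ : Non E₁
  non₂ : Non E₂
  top : TopEq E₁ E₂
  pl : PLEq (sum D E₁) (sum D E₂)

/-- Facts on bordism over normal 1-types: for each `P` there is the bordism group `Om P` of the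
normal 1-type `B` of `N P # V`, each closed manifold `K` has the set `cls P K` of the classes of
its normal 1-smoothings in `B`, and `κ P` is the class of the K3 surface. -/
structure IsBord (sum : Tri → Tri → Tri) (N : FP → Tri) (H E₁ E₂ : Tri) (Om : FP → Type)
    (grp : ∀ P, AddCommGroup (Om P)) (cls : ∀ P, Tri → Set (Om P)) (κ : ∀ P, Om P) : Prop where
  stable : ∀ P K L, Mfd K → Mfd L → Stab sum H K L → cls P K = cls P L
  orbit : ∀ P K x y, x ∈ cls P K → y ∈ cls P K → ∃ φ : Om P ≃+ Om P, φ x = y
  null : ∀ P, Asph P → 0 ∈ cls P (sum (N P) E₂)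
  k3 : ∀ P, Asph P → κ P ∈ cls P (sum (N P) E₁)
  spectral : ∀ P, Asph P → κ P ≠ 0

/-- The facts on closed 4-manifolds that are used, with the objects they are about. -/
structure Facts where
  sum : Tri → Tri → Tri
  N : FP → Tri
  D : Tri
  H : Tri
  E₁ : Tri
  E₂ : Tri
  Om : FP → Type
  grp : ∀ P, AddCommGroup (Om P)
  cls : ∀ P, Tri → Set (Om P)
  κ : ∀ P, Om P
  isSum : IsSum sum
  isThick : IsThick sum D N
  isPair : IsPair sum D E₁ E₂
  isBord : IsBord sum N H E₁ E₂ Om grp cls κ

/-- There is a finite aspherical presentation of a torsion-free group with unsolvable word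
problem. -/
def CollinsMiller : Prop :=
  ∃ P : FP, (∀ r ∈ P.2, r.2 = false) ∧ Asph P ∧
    (∀ g : Gr P, g ≠ 1 → ∀ m : ℕ, 0 < m → g ^ m ≠ 1) ∧
    ¬ ComputablePred (fun w : Word => ev P w = 1)

/-- On all homeomorphic pairs of the class `C` the partial function `f` halts and decides the
relation `R`. -/
def Decides (C : Tri → Prop) (R : Tri → Tri → Prop) (f : Tri → Tri →. Bool) : Prop :=
  ∀ K L, C K → C L → TopEq K L → (true ∈ f K L ↔ R K L) ∧ (false ∈ f K L ↔ ¬ R K L)

end Run7.h334.FM
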