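import Pool.Agent.Run7.h334.FM.Hnn

/-! # Asphericity of `⟨X, t | R, [t, w]⟩` -/

set_option autoImplicit false

namespace Run7.h334.FM

theorem rtr_zero {G : Type} [Group G] (g : G) : rtr g (0 : G → ℤ) = 0 := rfl

theorem fox_zero_fun (P : FP) (k : ℕ) (u : Word) : fox P k 0 u = 0 := by
  induction u with
  | nil => rfl
  | cons p u ih =>
    obtain ⟨j, b⟩ := p
    cases b <;> simp only [fox, rtr_zero, ih] <;> split_ifs <;> simp

/-- The Fox derivative at the new generator of an old word is zero. -/
theorem fox_new (Q : FP) (a : Gr Q → ℤ) (u : Word) : fox Q 0 a (sh u) = 0 := by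
  induction u generalizing a with
  | nil => rfl
  | cons p u ih =>
    obtain ⟨j, b⟩ := p
    cases b with
    | true =>
      show (if j + 1 = 0 then a else 0) + fox Q 0 (rtr (gen Q (j + 1)) a) (sh u) = 0
      rw [ih, if_neg (by omega), add_zero]
    | false =>
      show (if j + 1 = 0 then - rtr (gen Q (j + 1))⁻¹ a else 0)
        + fox Q 0 (rtr (gen Q (j + 1))⁻¹ a) (sh u) = 0
      rw [ih, if_neg (by omega), add_zero]

theorem rtr_mul {G : Type} [Group G] (g h : G) (a : G → ℤ) :
    rtr h (rtr g a) = rtr (g * h) a := by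
  funext y
  simp [rtr, mul_assoc]

theorem fox_append (Q : FP) (k : ℕ) (a : Gr Q → ℤ) (u v : Word) :
    fox Q k a (u ++ v) = fox Q k a u + fox Q k (rtr (ev Q u) a) v := by
  induction u generalizing a with
  | nil =>
    have : rtr (ev Q []) a = a := by funext y; simp [rtr, ev_nil]
    simp [fox, this]
  | cons p u ih =>
    obtain ⟨j, b⟩ := p
    cases b with
    | true =>
      show (if j = k then a else 0) + fox Q k (rtr (gen Q j) a) (u ++ v) =
        ((if j = k then a else 0) + fox Q k (rtr (gen Q j) a) u) + _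
      rw [ih, ev_cons_true, rtr_mul, add_assoc]
    | false =>
      show (if j = k then - rtr (gen Q j)⁻¹ a else 0) + fox Q k (rtr (gen Q j)⁻¹ a) (u ++ v) =
        ((if j = k then - rtr (gen Q j)⁻¹ a else 0) + fox Q k (rtr (gen Q j)⁻¹ a) u) + _
      rw [ih, ev_cons_false, rtr_mul, add_assoc]

/-- The Fox derivative of the new relator at the new generator is `1 - t w t⁻¹`. -/
theorem fox_comm (Q : FP) (a : Gr Q → ℤ) (w : Word) :
    fox Q 0 a (comm w) = a - rtr (gen Q 0 * ev Q (sh w) * (gen Q 0)⁻¹) a := by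
  rw [comm]
  show (if 0 = 0 then a else 0) + fox Q 0 (rtr (gen Q 0) a)
    (sh w ++ (0, false) :: sh (FreeGroup.invRev w)) = _
  rw [if_pos rfl, fox_append, fox_new, zero_add]
  show a + ((if 0 = 0 then - rtr (gen Q 0)⁻¹ (rtr (ev Q (sh w)) (rtr (gen Q 0) a)) else 0) +
    fox Q 0 (rtr (gen Q 0)⁻¹ (rtr (ev Q (sh w)) (rtr (gen Q 0) a)))
      (sh (FreeGroup.invRev w))) = _
  rw [if_pos rfl, fox_new, add_zero, rtr_mul, rtr_mul, sub_eq_add_neg, mul_assoc]

/-- Restriction to a left coset of the subgroup. -/
def res {G H : Type} [Group G] [Group H] (φ : G →* H) (y : H) (a : H → ℤ) : G → ℤ :=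
  fun h => a (y * φ h)

theorem res_rtr {G H : Type} [Group G] [Group H] (φ : G →* H) (y : H) (a : H → ℤ) (g : G) :
    res φ y (rtr (φ g) a) = rtr g (res φ y a) := by
  funext h
  simp [res, rtr, mul_assoc]

theorem res_add {G H : Type} [Group G] [Group H] (φ : G →* H) (y : H) (a b : H → ℤ) :
    res φ y (a + b) = res φ y a + res φ y b := rfl

theorem res_fox (P Q : FP) (φ : Gr P →* Gr Q) (hφ : ∀ k, φ (gen P k) = gen Q (k + 1))
    (y : Gr Q) (k : ℕ) (u : Word) (a : Gr Q → ℤ) :
    res φ y (fox Q (k + 1) a (sh u)) = fox P k (res φ y a) u := by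
  induction u generalizing a with
  | nil => rfl
  | cons p u ih =>
    obtain ⟨j, b⟩ := p
    cases b with
    | true =>
      show res φ y ((if j + 1 = k + 1 then a else 0)
        + fox Q (k + 1) (rtr (gen Q (j + 1)) a) (sh u)) =
        (if j = k then res φ y a else 0) + fox P k (rtr (gen P j) (res φ y a)) u
      rw [res_add, ih, ← hφ, res_rtr]
      congr 1
      by_cases h : j = k
      · rw [if_pos h, if_pos (by omega)]
      · rw [if_neg h, if_neg (by omega)]
        rfl
    | false =>
      show res φ y ((if j + 1 = k + 1 then - rtr (gen Q (j + 1))⁻¹ a else 0)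
        + fox Q (k + 1) (rtr (gen Q (j + 1))⁻¹ a) (sh u)) =
        (if j = k then - rtr (gen P j)⁻¹ (res φ y a) else 0)
          + fox P k (rtr (gen P j)⁻¹ (res φ y a)) u
      rw [res_add, ih, ← hφ, ← map_inv, res_rtr]
      congr 1
      by_cases h : j = k
      · rw [if_pos h, if_pos (by omega), ← res_rtr]
        rfl
      · rw [if_neg h, if_neg (by omega)]
        rfl

/-- A finitely supported function invariant under an element of infinite order is zero. -/
theorem eq_zero_of_rtr {G : Type} [Group G] (g : G) (hg : ∀ m : ℕ, 0 < m → g ^ m ≠ 1)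
    (a : G → ℤ) (hfin : (Function.support a).Finite) (h : a - rtr g a = 0) : a = 0 := by
  have h1 : ∀ y, a y = a (y * g⁻¹) := fun y => by
    have := congrFun h y
    simp only [Pi.sub_apply, rtr, Pi.zero_apply] at this
    omega
  have h2 : ∀ (m : ℕ) y, a y = a (y * (g⁻¹) ^ m) := by
    intro m
    induction m with
    | zero => intro y; simp
    | succ m ih =>
      intro y
      rw [ih y, h1 (y * g⁻¹ ^ m), mul_assoc, ← pow_succ]
  by_contra hne
  obtain ⟨y, hy⟩ : ∃ y, a y ≠ 0 := by
    by_contra hcon
    push Not at hcon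
    exact hne (funext hcon)
  have hinj : Function.Injective (fun m : ℕ => y * (g⁻¹) ^ m) := by
    have key : ∀ m l : ℕ, m < l → (g⁻¹) ^ m ≠ (g⁻¹) ^ l := by
      intro m l hml he
      have h3 : (g⁻¹) ^ (l - m) = 1 := by
        have h4 : (g⁻¹) ^ l = (g⁻¹) ^ m * (g⁻¹) ^ (l - m) := by rw [← pow_add]; congr 1; omega
        rw [h4] at he
        exact (mul_eq_left.1 he.symm)
      rw [inv_pow, inv_eq_one] at h3
      exact hg (l - m) (by omega) h3
    intro m l hml
    have hml' : (g⁻¹) ^ m = (g⁻¹) ^ l := mul_left_cancel hml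
    rcases lt_trichotomy m l with hlt | heq | hgt
    · exact absurd hml' (key m l hlt)
    · exact heq
    · exact absurd hml'.symm (key l m hgt)
  have hsub : Set.range (fun m : ℕ => y * (g⁻¹) ^ m) ⊆ Function.support a := by
    rintro _ ⟨m, rfl⟩
    show a (y * g⁻¹ ^ m) ≠ 0
    rw [← h2 m y]
    exact hy
  exact (Set.infinite_range_of_injective hinj) (hfin.subset hsub)

theorem support_res_finite {G H : Type} [Group G] [Group H] (φ : G →* H)
    (hφ : Function.Injective φ) (y : H) (a : H → ℤ) (ha : (Function.support a).Finite) :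
    (Function.support (res φ y a)).Finite := by
  have : Function.support (res φ y a) = (fun h => y * φ h) ⁻¹' Function.support a := rfl
  rw [this]
  exact ha.preimage (fun x _ x' _ hx => hφ (mul_left_cancel hx))

/-- **Asphericity of the presentation with one more generator commuting with `w`.** -/
theorem asph_hnn (P : FP) (hP : Asph P)
    (w : Word) (hw : ∀ m : ℕ, 0 < m → ev P w ^ m ≠ 1) : Asph (hnn P w) := by
  obtain ⟨φ, hinj, hgen, hev⟩ := exists_embed P w
  intro a hfin hsum
  have hlen : (hnn P w).2.length = P.2.length + 1 := by simp [hnn, shR]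
  have h0 : a 0 = 0 := by
    have h := hsum 0 (by show 0 < P.1 + 1; omega)
    rw [hlen, Finset.sum_range_succ'] at h
    have h1 : ∀ i ∈ Finset.range P.2.length,
        fox (hnn P w) 0 (a (i + 1)) ((hnn P w).2.getD (i + 1) ([], false)).1 = 0 := by
      intro i hi
      have hi' : i < P.2.length := Finset.mem_range.1 hi
      have : ((hnn P w).2.getD (i + 1) ([], false)).1 = sh (P.2.getD i ([], false)).1 := by
        simp [hnn, shR, List.getD_eq_getElem?_getD, hi']
      rw [this, fox_new]
    rw [Finset.sum_eq_zero h1, zero_add] at h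
    have h2 : ((hnn P w).2.getD 0 ([], false)).1 = comm w := by simp [hnn]
    rw [h2, fox_comm] at h
    refine eq_zero_of_rtr _ ?_ _ (hfin 0) h
    intro m hm he
    have h3 : (gen (hnn P w) 0 * ev (hnn P w) (sh w) * (gen (hnn P w) 0)⁻¹) ^ m
        = gen (hnn P w) 0 * ev (hnn P w) (sh w) ^ m * (gen (hnn P w) 0)⁻¹ := conj_pow
    rw [h3] at he
    have h4 : ev (hnn P w) (sh w) ^ m = 1 := by
      have h5 : gen (hnn P w) 0 * ev (hnn P w) (sh w) ^ m = gen (hnn P w) 0 :=
        mul_inv_eq_one.1 he
      exact mul_eq_left.1 h5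
    rw [← hev, ← map_pow] at h4
    exact hw m hm (hinj (by rw [h4, map_one]))
  have hstep : ∀ y : Gr (hnn P w), ∀ i < P.2.length, res φ y (a (i + 1)) = 0 := by
    intro y
    apply hP (fun i => res φ y (a (i + 1)))
      (fun i => support_res_finite φ hinj y _ (hfin (i + 1)))
    intro k hk
    have h := hsum (k + 1) (by show k + 1 < P.1 + 1; omega)
    rw [hlen, Finset.sum_range_succ', h0, fox_zero_fun, add_zero] at h
    have h1 : res φ y (∑ i ∈ Finset.range P.2.length,
        fox (hnn P w) (k + 1) (a (i + 1)) ((hnn P w).2.getD (i + 1) ([], false)).1) = 0 := by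
      rw [h]
      rfl
    have h2 : ∀ (s : Finset ℕ) (f : ℕ → (Gr (hnn P w) → ℤ)),
        res φ y (∑ i ∈ s, f i) = ∑ i ∈ s, res φ y (f i) := by
      intro s f
      funext z
      simp [res, Finset.sum_apply]
    rw [h2] at h1
    rw [← h1]
    apply Finset.sum_congr rfl
    intro i hi
    have hi' : i < P.2.length := Finset.mem_range.1 hi
    have : ((hnn P w).2.getD (i + 1) ([], false)).1 = sh (P.2.getD i ([], false)).1 := by
      simp [hnn, shR, List.getD_eq_getElem?_getD, hi']
    rw [this, res_fox P (hnn P w) φ hgen]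
  intro i hi
  rw [hlen] at hi
  cases i with
  | zero => exact h0
  | succ i =>
    funext y
    have h := congrFun (hstep y i (by omega)) 1
    simpa [res] using h

end Run7.h334.FM
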