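import Pool.Agent.Run7.h334.FM.Defs

/-! # The presentation `⟨X, t | R, [t, w]⟩` -/

set_option autoImplicit false

namespace Run7.h334.FM

/-- Renaming `x_j` to `x_{j+1}`. -/
def sh (u : Word) : Word := u.map (fun p => (p.1 + 1, p.2))

/-- The commutator of the new generator `x_0` with the word `w` (renamed). -/
def comm (w : Word) : Word := (0, true) :: (sh w ++ (0, false) :: sh (FreeGroup.invRev w))

/-- The renamed relators. -/
def shR (R : List (Word × Bool)) : List (Word × Bool) := R.map (fun r => (sh r.1, r.2))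

/-- The framed presentation with a new generator commuting with `w`, the new relator with
bit `true`. -/
def hnn (P : FP) (w : Word) : FP := (P.1 + 1, (comm w, true) :: shR P.2)

theorem ev_nil (P : FP) : ev P [] = 1 := by
  show PresentedGroup.mk (relSet P) (FreeGroup.mk []) = 1
  rw [← FreeGroup.one_eq_mk, map_one]

theorem ev_append (P : FP) (u v : Word) : ev P (u ++ v) = ev P u * ev P v := by
  simp only [ev]
  rw [← map_mul, FreeGroup.mul_mk]

theorem ev_single_true (P : FP) (j : ℕ) : ev P [(j, true)] = gen P j := rfl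

theorem ev_single_false (P : FP) (j : ℕ) : ev P [(j, false)] = (gen P j)⁻¹ := by
  have h : (FreeGroup.mk [(j, false)] : FreeGroup ℕ) = (FreeGroup.of j)⁻¹ := by
    simp [FreeGroup.of, FreeGroup.inv_mk, FreeGroup.invRev]
  show PresentedGroup.mk (relSet P) (FreeGroup.mk [(j, false)]) = _
  rw [h, map_inv]
  rfl

theorem ev_cons_true (P : FP) (j : ℕ) (u : Word) : ev P ((j, true) :: u) = gen P j * ev P u := by
  have := ev_append P [(j, true)] u
  simpa [ev_single_true] using this

theorem ev_cons_false (P : FP) (j : ℕ) (u : Word) :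
    ev P ((j, false) :: u) = (gen P j)⁻¹ * ev P u := by
  have := ev_append P [(j, false)] u
  simpa [ev_single_false] using this

theorem ev_invRev (P : FP) (u : Word) : ev P (FreeGroup.invRev u) = (ev P u)⁻¹ := by
  simp only [ev]
  rw [← map_inv, FreeGroup.inv_mk]

theorem lift_mk_eq {H : Type} [Group H] (f : ℕ → H) (P : FP) (φ : Gr P →* H)
    (hφ : ∀ k, φ (gen P k) = f k) (u : Word) : φ (ev P u) = FreeGroup.lift f (FreeGroup.mk u) := by
  have h : (φ.comp (PresentedGroup.mk (relSet P))) = FreeGroup.lift f := by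
    apply FreeGroup.ext_hom
    intro k
    simp only [MonoidHom.comp_apply, FreeGroup.lift_apply_of]
    exact hφ k
  rw [← h]
  rfl

theorem rel_eq_one (P : FP) (r : Word × Bool) (hr : r ∈ P.2) : ev P r.1 = 1 :=
  PresentedGroup.one_of_mem (Or.inl ⟨r, hr, rfl⟩)

theorem gen_eq_one (P : FP) (k : ℕ) (hk : P.1 ≤ k) : gen P k = 1 :=
  PresentedGroup.one_of_mem (Or.inr ⟨k, hk, rfl⟩)

theorem lift_gen (P : FP) (u : Word) (f : ℕ → Gr P) (hf : ∀ k, f k = gen P (k + 1)) :
    FreeGroup.lift f (FreeGroup.mk u) = ev P (sh u) := by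
  induction u with
  | nil => rw [← FreeGroup.one_eq_mk, map_one]; exact (ev_nil P).symm
  | cons p u ih =>
    obtain ⟨j, b⟩ := p
    have h1 : (FreeGroup.mk ((j, b) :: u) : FreeGroup ℕ) = FreeGroup.mk [(j, b)] * FreeGroup.mk u := by
      rw [FreeGroup.mul_mk]; rfl
    rw [h1, map_mul, ih]
    cases b with
    | true =>
      have : sh ((j, true) :: u) = (j + 1, true) :: sh u := rfl
      rw [this, ev_cons_true]
      congr 1
      rw [FreeGroup.lift_mk]
      simp [hf]
    | false =>
      have : sh ((j, false) :: u) = (j + 1, false) :: sh u := rfl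
      rw [this, ev_cons_false]
      congr 1
      rw [FreeGroup.lift_mk]
      simp [hf]

/-- The homomorphism `x_k ↦ x_{k+1}` to any presentation on one more generator containing the
renamed relators. -/
theorem exists_shift (P Q : FP) (hn : Q.1 = P.1 + 1) (hR : ∀ r ∈ P.2, (sh r.1, r.2) ∈ Q.2) :
    ∃ φ : Gr P →* Gr Q, (∀ k, φ (gen P k) = gen Q (k + 1)) ∧
      ∀ u, φ (ev P u) = ev Q (sh u) := by
  have hrel : ∀ r ∈ relSet P, FreeGroup.lift (fun k => gen Q (k + 1)) r = 1 := by
    rintro g (⟨r, hr, rfl⟩ | ⟨k, hk, rfl⟩)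
    · rw [lift_gen Q r.1 _ (fun k => rfl)]
      exact rel_eq_one Q _ (hR r hr)
    · rw [FreeGroup.lift_apply_of]
      exact gen_eq_one Q _ (by omega)
  refine ⟨PresentedGroup.toGroup hrel, fun k => ?_, fun u => ?_⟩
  · exact PresentedGroup.toGroup.of hrel
  · rw [lift_mk_eq (fun k => gen Q (k + 1)) P (PresentedGroup.toGroup hrel)
      (fun k => PresentedGroup.toGroup.of hrel) u]
    exact lift_gen Q u _ (fun k => rfl)

theorem mem_shR {R : List (Word × Bool)} {r : Word × Bool} (hr : r ∈ R) :
    (sh r.1, r.2) ∈ shR R := List.mem_map.2 ⟨r, hr, rfl⟩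

theorem ev_comm (Q : FP) (w : Word) :
    ev Q (comm w) = gen Q 0 * ev Q (sh w) * (gen Q 0)⁻¹ * (ev Q (sh w))⁻¹ := by
  have h : sh (FreeGroup.invRev w) = FreeGroup.invRev (sh w) := by
    simp only [sh, FreeGroup.invRev, List.map_map, List.map_reverse]
    rfl
  rw [comm, ev_cons_true, ev_append, ev_cons_false, h, ev_invRev]
  group

/-- If `w = 1` then the commutator is trivial modulo the old relators. -/
theorem ev_comm_of_one (n : ℕ) (R : List (Word × Bool)) (w : Word) (hw : ev (n, R) w = 1) :
    ev (n + 1, shR R) (comm w) = ev (n + 1, shR R) [] := by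
  obtain ⟨φ, -, h2⟩ := exists_shift (n, R) (n + 1, shR R) rfl (fun r hr => mem_shR hr)
  have : ev (n + 1, shR R) (sh w) = 1 := by rw [← h2, hw, map_one]
  rw [ev_comm, this, ev_nil]
  group

/-- The group of `P` embeds in the group of `hnn P w`. -/
theorem exists_embed (P : FP) (w : Word) :
    ∃ φ : Gr P →* Gr (hnn P w), Function.Injective φ ∧
      (∀ k, φ (gen P k) = gen (hnn P w) (k + 1)) ∧ ∀ u, φ (ev P u) = ev (hnn P w) (sh u) := by
  obtain ⟨φ, h1, h2⟩ := exists_shift P (hnn P w) rfl
    (fun r hr => List.mem_cons_of_mem _ (mem_shR hr))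
  refine ⟨φ, ?_, h1, h2⟩
  set A : Subgroup (Gr P) := Subgroup.zpowers (ev P w) with hA
  let H := HNNExtension (Gr P) A A (MulEquiv.refl A)
  let of' : Gr P →* H := HNNExtension.of
  let f : ℕ → H := fun k => match k with
    | 0 => HNNExtension.t
    | k + 1 => of' (gen P k)
  have hlift : ∀ u : Word, FreeGroup.lift f (FreeGroup.mk (sh u)) = of' (ev P u) := by
    intro u
    induction u with
    | nil =>
      show FreeGroup.lift f (FreeGroup.mk []) = _
      rw [← FreeGroup.one_eq_mk, map_one, ev_nil, map_one]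
    | cons p u ih =>
      obtain ⟨j, b⟩ := p
      have h3 : (FreeGroup.mk (sh ((j, b) :: u)) : FreeGroup ℕ)
          = FreeGroup.mk [(j + 1, b)] * FreeGroup.mk (sh u) := by
        rw [FreeGroup.mul_mk]; rfl
      rw [h3, map_mul, ih]
      cases b with
      | true =>
        rw [ev_cons_true, map_mul]
        congr 1
      | false =>
        rw [ev_cons_false, map_mul, map_inv]
        congr 1
  have hcomm : FreeGroup.lift f (FreeGroup.mk (comm w)) = 1 := by
    have h4 : (FreeGroup.mk (comm w) : FreeGroup ℕ)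
        = FreeGroup.of 0 * FreeGroup.mk (sh w) * (FreeGroup.of 0)⁻¹ *
          FreeGroup.mk (sh (FreeGroup.invRev w)) := by
      simp only [FreeGroup.of, FreeGroup.inv_mk, FreeGroup.mul_mk, FreeGroup.invRev, comm]
      simp
    rw [h4, map_mul, map_mul, map_mul, map_inv, hlift, hlift, FreeGroup.lift_apply_of, ev_invRev,
      map_inv]
    have h5 : (HNNExtension.t : H) * of' (ev P w) = of' (ev P w) * HNNExtension.t := by
      have := HNNExtension.t_mul_of (G := Gr P) (A := A) (B := A) (φ := MulEquiv.refl A)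
        ⟨ev P w, Subgroup.mem_zpowers _⟩
      simpa using this
    show HNNExtension.t * of' (ev P w) * (HNNExtension.t)⁻¹ * (of' (ev P w))⁻¹ = 1
    rw [h5]
    group
  have hrel : ∀ r ∈ relSet (hnn P w), FreeGroup.lift f r = 1 := by
    rintro g (⟨r, hr, rfl⟩ | ⟨k, hk, rfl⟩)
    · rcases List.mem_cons.1 hr with rfl | hr
      · exact hcomm
      · obtain ⟨r', hr', rfl⟩ := List.mem_map.1 hr
        show FreeGroup.lift f (FreeGroup.mk (sh r'.1)) = 1
        rw [hlift, rel_eq_one P r' hr', map_one]
    · rw [FreeGroup.lift_apply_of]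
      have hk' : P.1 + 1 ≤ k := hk
      obtain ⟨k, rfl⟩ : ∃ k', k = k' + 1 := ⟨k - 1, by omega⟩
      show of' (gen P k) = 1
      rw [gen_eq_one P k (by omega), map_one]
  let ψ : Gr (hnn P w) →* H := PresentedGroup.toGroup hrel
  have hcomp : ψ.comp φ = of' := by
    apply PresentedGroup.ext
    intro k
    show ψ (φ (gen P k)) = of' (gen P k)
    rw [h1]
    exact PresentedGroup.toGroup.of hrel
  have hinj : Function.Injective (ψ.comp φ) := by
    rw [hcomp]
    exact HNNExtension.of_injective (MulEquiv.refl A)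
  exact Function.Injective.of_comp (f := ψ) hinj

end Run7.h334.FM
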