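import Pool.Agent.Run7.h334.FM.Fox

/-! # No algorithm decides PL homeomorphism of homeomorphic closed 4-manifolds -/

set_option autoImplicit false

namespace Run7.h334.FM

theorem PLEq.symm' {K L : Tri} (h : PLEq K L) : PLEq L K := Relation.EqvGen.symm _ _ h

theorem PLEq.trans' {K L M : Tri} (h : PLEq K L) (h' : PLEq L M) : PLEq K M :=
  Relation.EqvGen.trans _ _ _ h h'

theorem PLEq.refl' (K : Tri) : PLEq K K := Relation.EqvGen.refl _

theorem TopEq.refl' (K : Tri) : TopEq K K := ⟨Homeomorph.refl _⟩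

/-- If `w = 1` then the two manifolds are PL homeomorphic. -/
theorem pl_of_one {sum : Tri → Tri → Tri} {N : FP → Tri} {D E₁ E₂ : Tri}
    (hs : IsSum sum) (hN : IsThick sum D N) (hE : IsPair sum D E₁ E₂)
    (P : FP) (hP : ∀ r ∈ P.2, r.2 = false) (w : Word) (hw : ev P w = 1) :
    PLEq (sum (N (hnn P w)) E₁) (sum (N (hnn P w)) E₂) := by
  obtain ⟨n, R⟩ := P
  have hR : ∀ r ∈ shR R, r.2 = false := by
    intro r hr
    obtain ⟨r', hr', rfl⟩ := List.mem_map.1 hr
    exact hP r' hr'
  set A := N (n + 1, shR R) with hA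
  have h1 : PLEq (N (hnn (n, R) w)) (sum A D) :=
    (hN.slide (n + 1) (shR R) (comm w) [] true hR (ev_comm_of_one n R w hw)).trans'
      (hN.trivial (n + 1) (shR R))
  have hmA : Mfd A := hN.mfd _
  have hsm : Mfd (sum A D) := hs.mfd _ _ hmA hE.mfdD
  have key : ∀ E, Non E → PLEq (sum (N (hnn (n, R) w)) E) (sum A (sum D E)) := fun E hE' =>
    (hs.congr _ _ _ _ (hN.mfd _) hsm hE' hE' h1 (PLEq.refl' E)).trans'
      (hs.assoc A D E hmA hE.mfdD hE')
  refine (key E₁ hE.non₁).trans' (PLEq.trans' ?_ (key E₂ hE.non₂).symm')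
  exact hs.congr _ _ _ _ hmA hmA (hs.non _ _ hE.mfdD hE.non₁) (hs.non _ _ hE.mfdD hE.non₂)
    (PLEq.refl' A) hE.pl

/-- For aspherical `P` the two manifolds are not stably PL homeomorphic. -/
theorem not_stab (F : Facts) (P : FP) (hA : Asph P) :
    ¬ Stab F.sum F.H (F.sum (F.N P) F.E₁) (F.sum (F.N P) F.E₂) := by
  intro h
  let _ := F.grp P
  have h1 := F.isBord.stable P _ _ (F.isSum.non _ _ (F.isThick.mfd P) F.isPair.non₁).1
    (F.isSum.non _ _ (F.isThick.mfd P) F.isPair.non₂).1 h
  have h2 := F.isBord.null P hA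
  rw [← h1] at h2
  obtain ⟨φ, hφ⟩ := F.isBord.orbit P _ _ _ h2 (F.isBord.k3 P hA)
  exact F.isBord.spectral P hA (by rw [← hφ]; exact map_zero φ)

/-- If `w ≠ 1` then the two manifolds are not stably PL homeomorphic. -/
theorem not_stab_of_ne (F : Facts) (P : FP) (hA : Asph P)
    (htf : ∀ g : Gr P, g ≠ 1 → ∀ m : ℕ, 0 < m → g ^ m ≠ 1) (w : Word) (hw : ev P w ≠ 1) :
    ¬ Stab F.sum F.H (F.sum (F.N (hnn P w)) F.E₁) (F.sum (F.N (hnn P w)) F.E₂) :=
  not_stab F _ (asph_hnn P hA w (htf _ hw))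

theorem computable_hnn (P : FP) : Computable (fun w : Word => hnn P w) := by
  have hsh : Primrec (fun w : Word => sh w) := by
    have h : Primrec₂ (fun (_ : Word) (p : ℕ × Bool) => (p.1 + 1, p.2)) :=
      Primrec.pair (Primrec.succ.comp (Primrec.fst.comp Primrec.snd))
        (Primrec.snd.comp Primrec.snd)
    exact Primrec.list_map Primrec.id h
  have hinv : Primrec (fun w : Word => FreeGroup.invRev w) := by
    have h : Primrec₂ (fun (_ : Word) (p : ℕ × Bool) => (p.1, !p.2)) :=
      Primrec.pair (Primrec.fst.comp Primrec.snd)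
        (Primrec.not.comp (Primrec.snd.comp Primrec.snd))
    exact Primrec.list_reverse.comp (Primrec.list_map Primrec.id h)
  have hcomm : Primrec (fun w : Word => comm w) := by
    refine Primrec.list_cons.comp (Primrec.const (0, true)) ?_
    refine Primrec.list_append.comp hsh ?_
    exact Primrec.list_cons.comp (Primrec.const (0, false)) (hsh.comp hinv)
  have : Primrec (fun w : Word => hnn P w) := by
    refine Primrec.pair (Primrec.const _) ?_
    exact Primrec.list_cons.comp (Primrec.pair hcomm (Primrec.const true)) (Primrec.const _)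
  exact this.to_comp

/-- **No algorithm.** -/
theorem no_algorithm (F : Facts) (hCM : CollinsMiller) (C : Tri → Prop) (hC : ∀ K, Non K → C K)
    (R : Tri → Tri → Prop) (h₁ : ∀ K L, PLEq K L → R K L)
    (h₂ : ∀ K L, R K L → Stab F.sum F.H K L) :
    ¬ ∃ f : Tri → Tri →. Bool, Partrec₂ f ∧ Decides C R f := by
  rintro ⟨f, hf, hdec⟩
  obtain ⟨P, hbits, hasph, htf, hnc⟩ := hCM
  apply hnc
  let X : Tri → Word → Tri := fun E w => F.sum (F.N (hnn P w)) E
  have hX : ∀ (E : Tri), Computable (X E) := fun E =>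
    F.isSum.comp.comp (F.isThick.comp.comp (computable_hnn P)) (Computable.const E)
  have hnon : ∀ (w : Word) (E : Tri), Non E → Non (X E w) := fun w E hE' =>
    F.isSum.non _ _ (F.isThick.mfd _) hE'
  have htop : ∀ w : Word, TopEq (X F.E₁ w) (X F.E₂ w) := fun w =>
    F.isSum.congr_top _ _ _ _ (F.isThick.mfd _) (F.isThick.mfd _) F.isPair.non₁ F.isPair.non₂
      (TopEq.refl' _) F.isPair.top
  have hiff : ∀ w : Word, ev P w = 1 ↔ R (X F.E₁ w) (X F.E₂ w) :=
    fun w => ⟨fun h => h₁ _ _ (pl_of_one F.isSum F.isThick F.isPair P hbits w h),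
      fun h => by
        by_contra hne
        exact not_stab_of_ne F P hasph htf w hne (h₂ _ _ h)⟩
  have hd := fun w : Word =>
    hdec _ _ (hC _ (hnon w F.E₁ F.isPair.non₁)) (hC _ (hnon w F.E₂ F.isPair.non₂)) (htop w)
  let g : Word → Bool := fun w => @decide (ev P w = 1) (Classical.propDecidable _)
  have hg : Partrec (fun w : Word => f (X F.E₁ w) (X F.E₂ w)) := hf.comp (hX F.E₁) (hX F.E₂)
  have hg' : Computable g := by
    refine Partrec.of_eq hg (fun w => ?_)
    by_cases h : ev P w = 1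
    · have h1 : true ∈ f (X F.E₁ w) (X F.E₂ w) := (hd w).1.2 ((hiff w).1 h)
      have h2 : g w = true := by simp [g, h]
      rw [Part.eq_some_iff.2 h1]
      show Part.some true = Part.some (g w)
      rw [h2]
    · have h1 : false ∈ f (X F.E₁ w) (X F.E₂ w) :=
        (hd w).2.2 (fun hpl => h ((hiff w).2 hpl))
      have h2 : g w = false := by simp [g, h]
      rw [Part.eq_some_iff.2 h1]
      show Part.some false = Part.some (g w)
      rw [h2]
  exact ⟨fun w => Classical.propDecidable _, hg'⟩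

end Run7.h334.FM
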